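import Pool.Agent.H3.AM.Basic

/-!
# Modules W2, W4 of the Alperin–McKay reduction: blocks of the base group
-/

open scoped Classical ComplexConjugate

set_option linter.unusedSectionVars false

namespace AMc

namespace W2aux

section noFintype

variable {G X : Type} [Group G] [Group X]

theorem ext_iff' {a b : G ≀ᵣ X} : a = b ↔ a.left = b.left ∧ a.right = b.right := by
  constructor
  · rintro rfl; exact ⟨rfl, rfl⟩
  · rintro ⟨h1, h2⟩
    cases a; cases b
    simp only at h1 h2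
    rw [h1, h2]

theorem left_mul_of {n g : G ≀ᵣ X} (hn : n.right = 1) (x : X) :
    (n * g).left x = n.left x * g.left x := by
  rw [RegularWreathProduct.mul_left]
  simp [hn]

theorem left_inv_of {n : G ≀ᵣ X} (hn : n.right = 1) (x : X) :
    (n⁻¹).left x = (n.left x)⁻¹ := by
  rw [RegularWreathProduct.inv_left]
  simp [hn]

theorem right_conj {n g : G ≀ᵣ X} (hn : n.right = 1) (hg : g.right = 1) :
    (n * g * n⁻¹).right = 1 := by
  simp [hn, hg]

theorem left_conj {n g : G ≀ᵣ X} (hn : n.right = 1) (hg : g.right = 1) (x : X) :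
    (n * g * n⁻¹).left x = n.left x * g.left x * (n.left x)⁻¹ := by
  rw [left_mul_of (by simp [hn, hg]), left_mul_of hn, left_inv_of hn]

end noFintype

variable {G X : Type} [Group G] [Group X] [Fintype G] [Fintype X] [Fintype (G ≀ᵣ X)]

/-- the product set -/
noncomputable def pset (S : X → Finset G) : Finset (G ≀ᵣ X) :=
  Finset.univ.filter (fun w => w.right = 1 ∧ ∀ x, w.left x ∈ S x)

theorem mem_pset {S : X → Finset G} {w : G ≀ᵣ X} :
    w ∈ pset S ↔ w.right = 1 ∧ ∀ x, w.left x ∈ S x := by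
  simp [pset]

theorem sum_pset (τ : X → (G → ℂ)) (S : X → Finset G) :
    ∑ w ∈ pset S, pr τ w = ∏ x, ∑ g ∈ S x, τ x g := by
  rw [Finset.prod_univ_sum]
  refine Finset.sum_bij' (fun w _ => w.left) (fun f _ => (⟨f, 1⟩ : G ≀ᵣ X)) ?_ ?_ ?_ ?_ ?_
  · intro w hw
    rw [Fintype.mem_piFinset]
    exact (mem_pset.1 hw).2
  · intro f hf
    rw [Fintype.mem_piFinset] at hf
    exact mem_pset.2 ⟨rfl, hf⟩
  · intro w hw
    rw [ext_iff']
    exact ⟨rfl, (mem_pset.1 hw).1.symm⟩
  · intro f _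
    rfl
  · intro w hw
    rw [pr, if_pos (mem_pset.1 hw).1]

theorem pr_one (τ : X → (G → ℂ)) : pr τ (1 : G ≀ᵣ X) = ∏ x, τ x 1 := by
  rw [pr, if_pos RegularWreathProduct.one_right]
  rfl

theorem om_pset (τ : X → (G → ℂ)) (S : X → Finset G) :
    om (pr τ) (pset S) = ∏ x, om (τ x) (S x) := by
  unfold om
  rw [sum_pset, pr_one, Finset.prod_div_distrib]

theorem pset_inv {L : Subgroup G} {S : X → Finset G}
    (hS : ∀ x, ∀ n ∈ L, ∀ g ∈ S x, n * g * n⁻¹ ∈ S x) :
    ∀ n ∈ base X L, ∀ g ∈ pset S, n * g * n⁻¹ ∈ pset S := by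
  rintro n ⟨hn, hn'⟩ g hg
  obtain ⟨hg1, hg2⟩ := mem_pset.1 hg
  refine mem_pset.2 ⟨right_conj hn hg1, fun x => ?_⟩
  rw [left_conj hn hg1]
  exact hS x _ (hn' x) _ (hg2 x)

theorem cls_base (L : Subgroup G) {w : G ≀ᵣ X} (hw : w.right = 1) :
    cls (base X L) w = pset (fun x => cls L (w.left x)) := by
  ext v
  rw [mem_cls, mem_pset]
  constructor
  · rintro ⟨u, hu, rfl⟩
    refine ⟨right_conj hu.1 hw, fun x => ?_⟩
    rw [left_conj hu.1 hw]
    exact mem_cls.2 ⟨_, hu.2 x, rfl⟩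
  · rintro ⟨hv, hv'⟩
    choose u hu hu' using fun x => mem_cls.1 (hv' x)
    refine ⟨⟨u, 1⟩, ⟨rfl, hu⟩, ?_⟩
    rw [ext_iff']
    refine ⟨?_, ?_⟩
    · funext x
      rw [left_conj rfl hw]
      exact hu' x
    · rw [hv, right_conj rfl hw]

variable {F : Type} [Field F] (π : integralClosure ℤ ℂ →+* F)

theorem lam_pset (hπ : Function.Surjective π) (hW1 : T_W1) (hB2 : T_B2) (L : Subgroup G)
    (τ : X → (G → ℂ)) (hτ : ∀ x, τ x ∈ IrrS L) (S : X → Finset G)
    (hS : ∀ x, ∀ n ∈ L, ∀ g ∈ S x, n * g * n⁻¹ ∈ S x) :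
    lam π (pr τ) (csum F (pset S)) = ∏ x, lam π (τ x) (csum F (S x)) := by
  have h1 := (hW1 G X L).1 τ hτ
  have h2 := (hB2 F π hπ (G ≀ᵣ X) (base X L) (pr τ) h1 (pset S) (pset_inv hS)).2
  rw [h2, om_pset]
  have h3 : ∀ x, IsIntegral ℤ (om (τ x) (S x)) ∧
      lam π (τ x) (csum F (S x)) = rd π (om (τ x) (S x)) := fun x =>
    hB2 F π hπ G L (τ x) (hτ x) (S x) (hS x)
  rw [(rd_prod π Finset.univ (fun x => om (τ x) (S x)) (fun x _ => (h3 x).1)).2]
  exact Finset.prod_congr rfl fun x _ => ((h3 x).2).symm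

theorem cls_inv (L : Subgroup G) (a : G) : ∀ n ∈ L, ∀ g ∈ cls L a, n * g * n⁻¹ ∈ cls L a :=
  fun _ hn _ hg => (cls_conj hn).2 hg

theorem lam_cls (hπ : Function.Surjective π) (hW1 : T_W1) (hB2 : T_B2) (L : Subgroup G)
    (τ : X → (G → ℂ)) (hτ : ∀ x, τ x ∈ IrrS L) {w : G ≀ᵣ X} (hw : w.right = 1) :
    lam π (pr τ) (csum F (cls (base X L) w)) = ∏ x, lam π (τ x) (csum F (cls L (w.left x))) := by
  rw [cls_base L hw]
  exact lam_pset π hπ hW1 hB2 L τ hτ _ (fun x => cls_inv L _)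

theorem cls_one (L : Subgroup G) : cls L (1 : G) = {1} := by
  ext g
  rw [mem_cls, Finset.mem_singleton]
  constructor
  · rintro ⟨u, _, rfl⟩; simp
  · rintro rfl; exact ⟨1, L.one_mem, by simp⟩

/-- the subgroup with coordinate subgroups -/
def gbase (Ls : X → Subgroup G) : Subgroup (G ≀ᵣ X) where
  carrier := {w | w.right = 1 ∧ ∀ x, w.left x ∈ Ls x}
  mul_mem' := by
    rintro a b ⟨ha, ha'⟩ ⟨hb, hb'⟩
    refine ⟨by simp [ha, hb], fun x => ?_⟩
    have := (Ls x).mul_mem (ha' x) (hb' x)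
    simpa [ha] using this
  one_mem' := ⟨rfl, fun x => (Ls x).one_mem⟩
  inv_mem' := by
    rintro a ⟨ha, ha'⟩
    refine ⟨by simp [ha], fun x => ?_⟩
    simpa [ha] using (Ls x).inv_mem (ha' x)

theorem card_gbase (Ls : X → Subgroup G) : Nat.card (gbase Ls) = ∏ x, Nat.card (Ls x) := by
  rw [← Nat.card_pi]
  refine Nat.card_congr ⟨fun w x => ⟨w.1.left x, w.2.2 x⟩,
    fun f => ⟨⟨fun x => (f x : G), 1⟩, rfl, fun x => (f x).2⟩, ?_, ?_⟩
  · rintro ⟨w, hw⟩
    apply Subtype.ext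
    rw [ext_iff']
    exact ⟨rfl, hw.1.symm⟩
  · intro f
    rfl

theorem base_eq_gbase (L : Subgroup G) : base X L = gbase (fun _ : X => L) := by
  ext w; rfl

theorem gbase_mono {Ls Ks : X → Subgroup G} (h : ∀ x, Ls x ≤ Ks x) : gbase Ls ≤ gbase Ks :=
  fun _ hw => ⟨hw.1, fun x => h x (hw.2 x)⟩

theorem relIndex_gbase {Ls Ks : X → Subgroup G} (h : ∀ x, Ls x ≤ Ks x) :
    (gbase Ls).relIndex (gbase Ks) = ∏ x, (Ls x).relIndex (Ks x) := by
  have h1 : (gbase Ls).relIndex (gbase Ks) * Nat.card (gbase Ls) = Nat.card (gbase Ks) := by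
    have := Subgroup.relIndex_mul_relIndex (⊥ : Subgroup (G ≀ᵣ X)) (gbase Ls) (gbase Ks) bot_le
      (gbase_mono h)
    rw [Subgroup.relIndex_bot_left, Subgroup.relIndex_bot_left] at this
    rw [mul_comm]; exact this
  have h2 : ∀ x, (Ls x).relIndex (Ks x) * Nat.card (Ls x) = Nat.card (Ks x) := by
    intro x
    have := Subgroup.relIndex_mul_relIndex (⊥ : Subgroup G) (Ls x) (Ks x) bot_le (h x)
    rw [Subgroup.relIndex_bot_left, Subgroup.relIndex_bot_left] at this
    rw [mul_comm]; exact this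
  have h3 : 0 < Nat.card (gbase Ls) := Nat.card_pos
  refine Nat.eq_of_mul_eq_mul_right h3 ?_
  rw [h1, card_gbase, card_gbase, ← Finset.prod_mul_distrib]
  exact Finset.prod_congr rfl fun x _ => (h2 x).symm

theorem isPGroup_base {ℓ : ℕ} [Fact ℓ.Prime] {D : Subgroup G} (hD : IsPGroup ℓ D) :
    IsPGroup ℓ (base X D) := by
  obtain ⟨n, hn⟩ := IsPGroup.iff_card.1 hD
  rw [IsPGroup.iff_card]
  refine ⟨∑ _x : X, n, ?_⟩
  rw [base_eq_gbase, card_gbase, ← Finset.prod_pow_eq_pow_sum]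
  exact Finset.prod_congr rfl fun x _ => hn

theorem centralizer_base (L : Subgroup G) {w : G ≀ᵣ X} (hw : w.right = 1) :
    Subgroup.centralizer {w} ⊓ base X L =
      gbase (fun x => Subgroup.centralizer {w.left x} ⊓ L) := by
  ext v
  constructor
  · rintro ⟨h1, h2⟩
    refine ⟨h2.1, fun x => ⟨?_, h2.2 x⟩⟩
    have h1' := Subgroup.mem_centralizer_singleton_iff.1 h1
    refine Subgroup.mem_centralizer_singleton_iff.2 ?_
    have := congrFun (congrArg RegularWreathProduct.left h1') x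
    rw [left_mul_of h2.1, left_mul_of hw] at this
    exact this
  · rintro ⟨h1, h2⟩
    refine ⟨?_, h1, fun x => (h2 x).2⟩
    refine Subgroup.mem_centralizer_singleton_iff.2 (ext_iff'.2 ⟨?_, by simp [h1, hw]⟩)
    funext x
    rw [left_mul_of h1, left_mul_of hw]
    exact Subgroup.mem_centralizer_singleton_iff.1 (h2 x).1

end W2aux

open W2aux

/-- W2: blocks of `base L` -/
theorem w2 (hW1 : T_W1) (hB1 : T_B1) (hB2 : T_B2) : T_W2 := by
  intro F _ π hπ ℓ _ _ G X _ _ _ _ _ L τ τ' hτ hτ'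
  have key : ∀ τ : X → (G → ℂ), (∀ x, τ x ∈ IrrS L) → CHom (base X L) (lam π (pr τ)) := fun τ hτ =>
    hB1 F π hπ (G ≀ᵣ X) (base X L) (pr τ) ((hW1 G X L).1 τ hτ)
  have key' : ∀ θ ∈ IrrS L, CHom L (lam π θ) := fun θ hθ => hB1 F π hπ G L θ hθ
  constructor
  · intro h y
    refine ZA_ext (nor_self L) _ _ (key' _ (hτ' y)).map_add (key' _ (hτ' y)).map_smul
      (key' _ (hτ y)).map_add (key' _ (hτ y)).map_smul ?_
    intro g hg
    set w : G ≀ᵣ X := ⟨Pi.mulSingle y g, 1⟩ with hw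
    have hwm : w ∈ base X L := by
      refine ⟨rfl, fun x => ?_⟩
      rw [hw]
      show (Pi.mulSingle y g : X → G) x ∈ L
      by_cases hxy : x = y
      · subst hxy; simpa using hg
      · rw [Pi.mulSingle_eq_of_ne hxy]; exact L.one_mem
    have h1 := h _ (csum_cls_mem_self hwm)
    rw [lam_cls π hπ hW1 hB2 L τ' hτ' rfl, lam_cls π hπ hW1 hB2 L τ hτ rfl] at h1
    have h2 : ∀ τ : X → (G → ℂ), (∀ x, τ x ∈ IrrS L) →
        ∏ x, lam π (τ x) (csum F (cls L (w.left x))) = lam π (τ y) (csum F (cls L g)) := by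
      intro τ hτ
      rw [Finset.prod_eq_single y]
      · rw [hw]; simp
      · intro x _ hxy
        have : w.left x = 1 := by
          rw [hw]; exact Pi.mulSingle_eq_of_ne (M := fun _ => G) hxy g
        rw [this, cls_one, csum_one]
        exact (key' _ (hτ x)).map_one
      · intro h; exact absurd (Finset.mem_univ _) h
    rw [h2 τ' hτ', h2 τ hτ] at h1
    exact h1
  · intro h
    refine ZA_ext (nor_self _) _ _ (key _ hτ').map_add (key _ hτ').map_smul
      (key _ hτ).map_add (key _ hτ).map_smul ?_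
    intro w hw
    rw [lam_cls π hπ hW1 hB2 L τ' hτ' hw.1, lam_cls π hπ hW1 hB2 L τ hτ hw.1]
    exact Finset.prod_congr rfl fun x _ => h x _ (csum_cls_mem_self (hw.2 x))

/-- W3: defect groups of `base L` -/
theorem w3 (hW1 : T_W1) (hB2 : T_B2) : T_W3 := by
  intro F _ π hπ ℓ _ _ G X _ _ _ _ _ L D τ hτ hD
  refine ⟨isPGroup_base (hD 1).1, ?_, ?_, ?_⟩
  · intro w hw
    exact ⟨hw.1, fun x => (hD 1).2.1 (hw.2 x)⟩
  · choose a ha ha1 ha2 ha3 using fun x => (hD x).2.2.1
    refine ⟨⟨a, 1⟩, ⟨rfl, ha⟩, ?_, ?_, ?_⟩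
    · rw [lam_cls π hπ hW1 hB2 L τ hτ rfl, Finset.prod_ne_zero_iff]
      exact fun x _ => ha1 x
    · intro v hv
      rw [Subgroup.mem_centralizer_singleton_iff, ext_iff']
      refine ⟨?_, by simp [hv.1]⟩
      funext x
      rw [left_mul_of hv.1, left_mul_of rfl]
      exact Subgroup.mem_centralizer_singleton_iff.1 (ha2 x (hv.2 x))
    · rw [centralizer_base L rfl, base_eq_gbase, relIndex_gbase]
      · rw [Prime.dvd_finsetProd_iff (Nat.Prime.prime (Fact.out))]
        rintro ⟨x, _, hx⟩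
        exact ha3 x hx
      · exact fun x => le_inf (ha2 x) (hD x).2.1
  · intro w hw hne
    rw [lam_cls π hπ hW1 hB2 L τ hτ hw.1, Finset.prod_ne_zero_iff] at hne
    choose u hu hu' using fun x => (hD x).2.2.2 (w.left x) (hw.2 x) (hne x (Finset.mem_univ x))
    refine ⟨⟨u, 1⟩, ⟨rfl, hu⟩, ?_⟩
    intro d hd
    rw [Subgroup.mem_centralizer_singleton_iff, ext_iff']
    refine ⟨?_, by simp [hd.1, hw.1]⟩
    funext x
    rw [left_mul_of (right_conj rfl hd.1), left_mul_of hw.1, left_conj rfl hd.1]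
    exact Subgroup.mem_centralizer_singleton_iff.1 (hu' x _ (hd.2 x))

theorem W2aux.norm_base {G X : Type} [Group G] [Group X] [Fintype G] [Fintype X]
    (L D : Subgroup G) :
    base X L ⊓ Subgroup.normalizer ((base X D : Subgroup (G ≀ᵣ X)) : Set (G ≀ᵣ X)) =
      base X (L ⊓ Subgroup.normalizer (D : Set G)) := by
  have conjm : ∀ w h : G ≀ᵣ X, w.right = 1 → (w * h * w⁻¹ ∈ base X D ↔
      h.right = 1 ∧ ∀ x, w.left x * h.left x * (w.left x)⁻¹ ∈ D) := by
    intro w h hw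
    have hr : (w * h * w⁻¹).right = h.right := by simp [hw]
    constructor
    · rintro ⟨h1, h2⟩
      rw [hr] at h1
      refine ⟨h1, fun x => ?_⟩
      have := h2 x
      rwa [left_conj hw h1] at this
    · rintro ⟨h1, h2⟩
      refine ⟨by rw [hr]; exact h1, fun x => ?_⟩
      rw [left_conj hw h1]
      exact h2 x
  ext w
  constructor
  · rintro ⟨h1, h2⟩
    refine ⟨h1.1, fun x => ⟨h1.2 x, ?_⟩⟩
    have h2' := Subgroup.mem_normalizer_iff.1 h2
    refine Subgroup.mem_normalizer_iff.2 ?_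
    intro d
    have h3 := h2' ⟨Pi.mulSingle x d, 1⟩
    rw [conjm w _ h1.1] at h3
    constructor
    · intro hd
      have h4 : (⟨Pi.mulSingle x d, 1⟩ : G ≀ᵣ X) ∈ base X D := by
        refine ⟨rfl, fun y => ?_⟩
        show (Pi.mulSingle x d : X → G) y ∈ D
        by_cases hxy : y = x
        · subst hxy; simpa using hd
        · rw [Pi.mulSingle_eq_of_ne hxy]; exact D.one_mem
      have h5 := (h3.1 h4).2 x
      simpa using h5
    · intro hd
      have h4 : (⟨Pi.mulSingle x d, 1⟩ : G ≀ᵣ X) ∈ base X D := by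
        apply h3.2
        refine ⟨rfl, fun y => ?_⟩
        show w.left y * (Pi.mulSingle x d : X → G) y * (w.left y)⁻¹ ∈ D
        by_cases hxy : y = x
        · subst hxy; simpa using hd
        · rw [Pi.mulSingle_eq_of_ne hxy, mul_one, mul_inv_cancel]; exact D.one_mem
      have := h4.2 x
      simpa using this
  · rintro ⟨h1, h2⟩
    refine ⟨⟨h1, fun x => (h2 x).1⟩, ?_⟩
    refine Subgroup.mem_normalizer_iff.2 ?_
    intro h
    rw [conjm w _ h1]
    constructor
    · rintro ⟨h3, h4⟩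
      exact ⟨h3, fun x => (Subgroup.mem_normalizer_iff.1 (h2 x).2 _).1 (h4 x)⟩
    · rintro ⟨h3, h4⟩
      exact ⟨h3, fun x => (Subgroup.mem_normalizer_iff.1 (h2 x).2 _).2 (h4 x)⟩

/-- W4: Brauer correspondence of `base L` -/
theorem w4 (hW1 : T_W1) (hB1 : T_B1) (hB2 : T_B2) (hD2 : T_D2) : T_W4 := by
  intro F _ π hπ ℓ _ _ G X _ _ _ _ _ L D τ τ' hτ hτ' hcor
  have k1 : CHom (base X L) (lam π (pr τ)) :=
    hB1 F π hπ (G ≀ᵣ X) (base X L) (pr τ) ((hW1 G X L).1 τ hτ)
  have k2 : CHom (base X (L ⊓ Subgroup.normalizer (D : Set G))) (lam π (pr τ')) :=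
    hB1 F π hπ (G ≀ᵣ X) _ (pr τ') ((hW1 G X _).1 τ' hτ')
  have hbr : ∀ z ∈ ZA F (base X L) (base X L), br (base X D) z ∈
      ZA F (base X (L ⊓ Subgroup.normalizer (D : Set G)))
        (base X (L ⊓ Subgroup.normalizer (D : Set G))) := by
    intro z hz
    have := hD2 F (G ≀ᵣ X) (base X L) (base X L) (base X D) z hz
    rwa [norm_base] at this
  refine ZA_ext (nor_self _) (lam π (pr τ)) (fun z => lam π (pr τ') (br (base X D) z))
    k1.map_add k1.map_smul ?_ ?_ ?_
  · intro z hz w hw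
    show lam π (pr τ') (br (base X D) (z + w)) = _
    rw [br_add, k2.map_add _ (hbr z hz) _ (hbr w hw)]
  · intro c z hz
    show lam π (pr τ') (br (base X D) (c • z)) = _
    rw [br_smul, k2.map_smul _ _ (hbr z hz)]
  · intro w hw
    show _ = lam π (pr τ') (br (base X D) (csum F (cls (base X L) w)))
    rw [lam_cls π hπ hW1 hB2 L τ hτ hw.1, br_csum, cls_base L hw.1]
    have hset : (pset (fun x => cls L (w.left x))).filter
        (fun g => g ∈ Subgroup.centralizer ((base X D : Subgroup (G ≀ᵣ X)) : Set (G ≀ᵣ X))) =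
        pset (fun x => (cls L (w.left x)).filter
          (fun g => g ∈ Subgroup.centralizer (D : Set G))) := by
      ext v
      rw [Finset.mem_filter, mem_pset, mem_pset]
      constructor
      · rintro ⟨⟨h1, h2⟩, h3⟩
        refine ⟨h1, fun x => Finset.mem_filter.2 ⟨h2 x, ?_⟩⟩
        rw [Subgroup.mem_centralizer_iff] at h3 ⊢
        intro d hd
        have h4 := h3 ⟨Pi.mulSingle x d, 1⟩ ?_
        · have h5 := congrFun (congrArg RegularWreathProduct.left h4) x
          rw [left_mul_of rfl, left_mul_of h1] at h5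
          simpa using h5
        · refine ⟨rfl, fun y => ?_⟩
          show (Pi.mulSingle x d : X → G) y ∈ D
          by_cases hxy : y = x
          · subst hxy; simpa using hd
          · rw [Pi.mulSingle_eq_of_ne hxy]; exact D.one_mem
      · rintro ⟨h1, h2⟩
        refine ⟨⟨h1, fun x => (Finset.mem_filter.1 (h2 x)).1⟩, ?_⟩
        rw [Subgroup.mem_centralizer_iff]
        intro d hd
        rw [ext_iff']
        refine ⟨?_, by simp [h1, hd.1]⟩
        funext x
        rw [left_mul_of hd.1, left_mul_of h1]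
        exact Subgroup.mem_centralizer_iff.1 (Finset.mem_filter.1 (h2 x)).2 _ (hd.2 x)
    rw [hset, lam_pset π hπ hW1 hB2 _ τ' hτ']
    · refine Finset.prod_congr rfl fun x _ => ?_
      rw [← br_csum]
      exact hcor x _ (csum_cls_mem_self (hw.2 x))
    · intro x n hn g hg
      rw [Finset.mem_filter] at hg ⊢
      refine ⟨(cls_conj hn.1).2 hg.1, ?_⟩
      have h1 := Subgroup.mem_normalizer_iff''.1 hn.2
      rw [Subgroup.mem_centralizer_iff] at hg ⊢
      intro d hd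
      have h2 := hg.2 _ ((h1 d).1 hd)
      calc d * (n * g * n⁻¹) = n * ((n⁻¹ * d * n) * g) * n⁻¹ := by group
        _ = n * (g * (n⁻¹ * d * n)) * n⁻¹ := by rw [h2]
        _ = n * g * n⁻¹ * d := by group

end AMc
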